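import Pool.Agent.ANO3.Tree.Defs

/-!
# ANO3, module Tree: the signed distance (package TREE-BASIC)

Everything is elementary. `nonneg`: `0 = d a a ≤ d a b + d b a`. `gp_nonneg`, `gp_le`: triangle
inequality. `gp_trans`: the four point condition for `w`, `b`, `a`, `c`:
`d w b + d a c ≤ max (d w a + d b c) (d w c + d b a)`, so
`gp w a c = d w a + d w c - d a c ≥ min (gp w b c) (gp w a b)`. With an arc: `gp w zm zp = 0`, so
`min (gp w zm p) (gp w p zp) ≤ 0`: one of them is `0`;
`side p = d zm p - d zp p = gp w p zp - gp w p zm` (as `d w zm = d w zp`), and the first three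
equivalences follow. `abs_side_le`: `|d zm p - d zp p| ≤ d zm zp = 2 t`, and `gp w p z ≤ 2 d w p`.

`sdist`: if `0 < gp w p zp` and `0 < gp w q zp` then `0 < gp w p q` (`gp_trans`); if `0 < gp w p
zp` and
`0 < gp w q zm` then `gp w p q = 0` (otherwise `0 < gp w zp zm` by `gp_trans` twice), i.e.
`d p q = d w p + d w q`. `lipschitz`: same side: `|d w p - d w q| ≤ d p q`; different sides:
`|sdist p - sdist q| = d w p + d w q = d p q`; `side p = 0`: `d w p = 0`, so
`|sdist q| ≤ d w q ≤ d w p + d p q = d p q`.
`between`: `sdist p < 0 < sdist q` gives `d p w + d w q = d p q`.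
`not_between`: same sign: `d p q < d p w + d w q`.
`sdist_eq`: if `w'` is such that `d w w' = 0` nothing changes: `d w p = d w' p`.
-/

set_option autoImplicit false

open Set Filter Topology

namespace Pool.Agent.ANO3.Tree

variable {P : Type*} {d : P → P → ℝ}

theorem IsTree.nonneg (h : IsTree d) (a b : P) : 0 ≤ d a b := by
  have h1 := h.triangle a b a
  rw [h.self, h.symm b a] at h1
  linarith

theorem IsTree.congr_left (h : IsTree d) {a a' : P} (ha : d a a' = 0) (b : P) : d a b = d a' b := by
  have h1 := h.triangle a a' b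
  have h2 := h.triangle a' a b
  rw [h.symm a' a] at h2
  linarith

theorem IsTree.abs_sub_le (h : IsTree d) (a b c : P) : |d a b - d a c| ≤ d b c := by
  have h1 := h.triangle a c b
  have h2 := h.triangle a b c
  rw [h.symm c b] at h1
  rw [abs_le]
  constructor <;> linarith

theorem gp_nonneg (h : IsTree d) (w a b : P) : 0 ≤ gp d w a b := by
  have h1 := h.triangle a w b
  rw [h.symm a w] at h1
  unfold gp
  linarith

theorem gp_comm (h : IsTree d) (w a b : P) : gp d w a b = gp d w b a := by
  unfold gp
  rw [h.symm a b]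
  ring

theorem gp_le_left (h : IsTree d) (w a b : P) : gp d w a b ≤ 2 * d w a := by
  have h1 := h.triangle w a b
  unfold gp
  linarith

theorem gp_trans (h : IsTree d) (w a b c : P) :
    min (gp d w a b) (gp d w b c) ≤ gp d w a c := by
  have h1 := h.tree w b a c
  have h2 := h.symm b a
  unfold gp
  rcases le_max_iff.mp h1 with h3 | h3
  · refine (min_le_right _ _).trans ?_
    linarith
  · refine (min_le_left _ _).trans ?_
    linarith

variable {w zm zp : P} {t : ℝ}

private theorem gp_arc_Basic (ha : IsArc d w zm zp t) : gp d w zm zp = 0 := by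
  unfold gp
  rw [ha.left, ha.right, ha.sum]
  ring

private theorem min_gp_Basic (h : IsTree d) (ha : IsArc d w zm zp t) (p : P) :
    gp d w p zm = 0 ∨ gp d w p zp = 0 := by
  have h1 := gp_trans h w zm p zp
  rw [gp_arc_Basic ha, gp_comm h w zm p] at h1
  rcases min_le_iff.mp h1 with h2 | h2
  · exact Or.inl (le_antisymm h2 (gp_nonneg h _ _ _))
  · exact Or.inr (le_antisymm h2 (gp_nonneg h _ _ _))

theorem side_eq (h : IsTree d) (ha : IsArc d w zm zp t) (p : P) :
    side d zm zp p = gp d w p zp - gp d w p zm := by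
  unfold side gp
  rw [ha.left, ha.right, h.symm zm p, h.symm zp p]
  ring

theorem side_pos_iff (h : IsTree d) (ha : IsArc d w zm zp t) (p : P) :
    0 < side d zm zp p ↔ 0 < gp d w p zp := by
  rw [side_eq h ha p]
  have h1 := gp_nonneg h w p zm
  constructor
  · intro h2
    linarith
  · intro h2
    rcases min_gp_Basic h ha p with h3 | h3
    · linarith
    · linarith

theorem side_neg_iff (h : IsTree d) (ha : IsArc d w zm zp t) (p : P) :
    side d zm zp p < 0 ↔ 0 < gp d w p zm := by
  rw [side_eq h ha p]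
  have h1 := gp_nonneg h w p zp
  constructor
  · intro h2
    linarith
  · intro h2
    rcases min_gp_Basic h ha p with h3 | h3
    · linarith
    · linarith

theorem side_eq_zero_iff (h : IsTree d) (ha : IsArc d w zm zp t) (p : P) :
    side d zm zp p = 0 ↔ gp d w p zp = 0 ∧ gp d w p zm = 0 := by
  rw [side_eq h ha p]
  constructor
  · intro h2
    rcases min_gp_Basic h ha p with h3 | h3
    · exact ⟨by linarith, h3⟩
    · exact ⟨h3, by linarith⟩
  · rintro ⟨h2, h3⟩
    rw [h2, h3]
    ring

theorem side_of_zero (h : IsTree d) (ha : IsArc d w zm zp t) {p : P} (hp : d w p = 0) :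
    side d zm zp p = 0 := by
  rw [side_eq_zero_iff h ha]
  have h1 := gp_le_left h w p zp
  have h2 := gp_le_left h w p zm
  rw [hp, mul_zero] at h1 h2
  exact ⟨le_antisymm h1 (gp_nonneg h _ _ _), le_antisymm h2 (gp_nonneg h _ _ _)⟩

theorem abs_side_le (h : IsTree d) (ha : IsArc d w zm zp t) (p : P) :
    |side d zm zp p| ≤ 2 * t ∧ |side d zm zp p| ≤ 2 * d w p := by
  constructor
  · have h1 := h.abs_sub_le p zm zp
    rw [ha.sum] at h1
    unfold side
    rw [h.symm zm p, h.symm zp p]
    exact h1
  · rw [side_eq h ha p, abs_le]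
    have h1 := gp_nonneg h w p zp
    have h2 := gp_nonneg h w p zm
    have h3 := gp_le_left h w p zp
    have h4 := gp_le_left h w p zm
    constructor <;> linarith

/-- points on the same side -/
theorem gp_pos_of_pos (h : IsTree d) (ha : IsArc d w zm zp t) {p q : P}
    (hp : 0 < side d zm zp p) (hq : 0 < side d zm zp q) : 0 < gp d w p q := by
  rw [side_pos_iff h ha] at hp hq
  rw [gp_comm h w q zp] at hq
  exact lt_of_lt_of_le (lt_min hp hq) (gp_trans h w p zp q)

theorem gp_pos_of_neg (h : IsTree d) (ha : IsArc d w zm zp t) {p q : P}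
    (hp : side d zm zp p < 0) (hq : side d zm zp q < 0) : 0 < gp d w p q := by
  rw [side_neg_iff h ha] at hp hq
  rw [gp_comm h w q zm] at hq
  exact lt_of_lt_of_le (lt_min hp hq) (gp_trans h w p zm q)

/-- points on different sides -/
theorem between (h : IsTree d) (ha : IsArc d w zm zp t) {p q : P}
    (hp : side d zm zp p < 0) (hq : 0 < side d zm zp q) : d p w + d w q = d p q := by
  rw [side_neg_iff h ha] at hp
  rw [side_pos_iff h ha] at hq
  have h1 : ¬ 0 < gp d w p q := by
    intro h2
    rw [gp_comm h w p zm] at hp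
    have h3 : 0 < gp d w zm q := lt_of_lt_of_le (lt_min hp h2) (gp_trans h w zm p q)
    have h4 : 0 < gp d w zm zp := lt_of_lt_of_le (lt_min h3 hq) (gp_trans h w zm q zp)
    rw [gp_arc_Basic ha] at h4
    exact lt_irrefl _ h4
  have h2 : gp d w p q = 0 := le_antisymm (not_lt.mp h1) (gp_nonneg h _ _ _)
  unfold gp at h2
  rw [h.symm p w]
  linarith

/-- the side is constant where the Gromov product is positive -/
theorem side_pos_of_gp (h : IsTree d) (ha : IsArc d w zm zp t) {p q : P} (hpq : 0 < gp d w p q)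
    (hp : 0 < side d zm zp p) : 0 < side d zm zp q := by
  rw [side_pos_iff h ha] at hp ⊢
  rw [gp_comm h w p q] at hpq
  exact lt_of_lt_of_le (lt_min hpq hp) (gp_trans h w q p zp)

theorem side_neg_of_gp (h : IsTree d) (ha : IsArc d w zm zp t) {p q : P} (hpq : 0 < gp d w p q)
    (hp : side d zm zp p < 0) : side d zm zp q < 0 := by
  rw [side_neg_iff h ha] at hp ⊢
  rw [gp_comm h w p q] at hpq
  exact lt_of_lt_of_le (lt_min hpq hp) (gp_trans h w q p zm)

private theorem sdist_of_pos_Basic {p : P} (hp : 0 < side d zm zp p) :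
    sdist d w zm zp p = d w p := by
  unfold sdist
  rw [if_pos hp]

private theorem sdist_of_neg_Basic {p : P} (hp : side d zm zp p < 0) :
    sdist d w zm zp p = -d w p := by
  unfold sdist
  rw [if_neg (not_lt.mpr hp.le), if_pos hp]

private theorem sdist_of_zero_Basic {p : P} (hp : side d zm zp p = 0) :
    sdist d w zm zp p = 0 := by
  unfold sdist
  rw [if_neg (by rw [hp]; exact lt_irrefl _), if_neg (by rw [hp]; exact lt_irrefl _)]

theorem abs_sdist (h : IsTree d) {s : Set P} (h2 : TwoSided d w zm zp s) {p : P} (hp : p ∈ s) :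
    |sdist d w zm zp p| = d w p := by
  rcases lt_trichotomy (side d zm zp p) 0 with h3 | h3 | h3
  · rw [sdist_of_neg_Basic h3, abs_neg, abs_of_nonneg (h.nonneg _ _)]
  · rw [sdist_of_zero_Basic h3, h2 p hp h3, abs_zero]
  · rw [sdist_of_pos_Basic h3, abs_of_nonneg (h.nonneg _ _)]

private theorem dist_pos_Basic (h : IsTree d) (ha : IsArc d w zm zp t) {p : P}
    (hp : side d zm zp p ≠ 0) : 0 < d w p := by
  rcases (h.nonneg w p).lt_or_eq with h1 | h1
  · exact h1
  · exact absurd (side_of_zero h ha h1.symm) hp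

theorem sdist_pos_iff (h : IsTree d) (ha : IsArc d w zm zp t) (p : P) :
    0 < sdist d w zm zp p ↔ 0 < side d zm zp p := by
  rcases lt_trichotomy (side d zm zp p) 0 with h3 | h3 | h3
  · rw [sdist_of_neg_Basic h3]
    have h4 := h.nonneg w p
    constructor
    · intro h5; linarith
    · intro h5; linarith
  · rw [sdist_of_zero_Basic h3, h3]
  · rw [sdist_of_pos_Basic h3]
    exact ⟨fun _ => h3, fun _ => dist_pos_Basic h ha h3.ne'⟩

theorem sdist_neg_iff (h : IsTree d) (ha : IsArc d w zm zp t) (p : P) :
    sdist d w zm zp p < 0 ↔ side d zm zp p < 0 := by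
  rcases lt_trichotomy (side d zm zp p) 0 with h3 | h3 | h3
  · rw [sdist_of_neg_Basic h3]
    have h4 := dist_pos_Basic h ha h3.ne
    exact ⟨fun _ => h3, fun _ => by linarith⟩
  · rw [sdist_of_zero_Basic h3, h3]
  · rw [sdist_of_pos_Basic h3]
    have h4 := h.nonneg w p
    constructor
    · intro h5; linarith
    · intro h5; linarith

theorem sdist_lipschitz (h : IsTree d) (ha : IsArc d w zm zp t) {s : Set P}
    (h2 : TwoSided d w zm zp s) {p q : P} (hp : p ∈ s) (hq : q ∈ s) :
    |sdist d w zm zp p - sdist d w zm zp q| ≤ d p q := by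
  have hpq : |d w p - d w q| ≤ d p q := h.abs_sub_le w p q
  rcases lt_trichotomy (side d zm zp p) 0 with h3 | h3 | h3 <;>
    rcases lt_trichotomy (side d zm zp q) 0 with h4 | h4 | h4
  · rw [sdist_of_neg_Basic h3, sdist_of_neg_Basic h4]
    rw [abs_sub_comm] at hpq
    have : -d w p - -d w q = d w q - d w p := by ring
    rw [this]
    exact hpq
  · rw [sdist_of_neg_Basic h3, sdist_of_zero_Basic h4]
    rw [h2 q hq h4] at hpq
    have : -d w p - 0 = -(d w p - 0) := by ring
    rw [this, abs_neg]
    exact hpq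
  · rw [sdist_of_neg_Basic h3, sdist_of_pos_Basic h4]
    have h5 := between h ha h3 h4
    have h6 := h.nonneg w p
    have h7 := h.nonneg w q
    rw [h.symm p w] at h5
    rw [abs_le]
    constructor <;> linarith
  · rw [sdist_of_zero_Basic h3, sdist_of_neg_Basic h4]
    rw [h2 p hp h3] at hpq
    have : (0 : ℝ) - -d w q = -(0 - d w q) := by ring
    rw [this, abs_neg]
    exact hpq
  · rw [sdist_of_zero_Basic h3, sdist_of_zero_Basic h4, sub_zero, abs_zero]
    exact h.nonneg _ _
  · rw [sdist_of_zero_Basic h3, sdist_of_pos_Basic h4]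
    rw [h2 p hp h3] at hpq
    exact hpq
  · rw [sdist_of_pos_Basic h3, sdist_of_neg_Basic h4]
    have h5 := between h ha h4 h3
    have h6 := h.nonneg w p
    have h7 := h.nonneg w q
    rw [h.symm q w, h.symm q p] at h5
    rw [abs_le]
    constructor <;> linarith
  · rw [sdist_of_pos_Basic h3, sdist_of_zero_Basic h4]
    rw [h2 q hq h4] at hpq
    exact hpq
  · rw [sdist_of_pos_Basic h3, sdist_of_pos_Basic h4]
    exact hpq

/-- two arcs at the same point define the same signed distance up to the sign -/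
theorem sdist_arc (h : IsTree d) (ha : IsArc d w zm zp t) {zm' zp' : P} {t' : ℝ}
    (ha' : IsArc d w zm' zp' t') {s : Set P} (h2 : TwoSided d w zm zp s)
    (h2' : TwoSided d w zm' zp' s) (hm : zm' ∈ s) (hp : zp' ∈ s) :
    (∀ p ∈ s, sdist d w zm' zp' p = sdist d w zm zp p) ∨
      ∀ p ∈ s, sdist d w zm' zp' p = -sdist d w zm zp p := by
  have hgp : gp d w zm' zp' = 0 := gp_arc_Basic ha'
  have hm0 : side d zm zp zm' ≠ 0 := by
    intro h0
    have h1 := h2 zm' hm h0
    rw [ha'.left] at h1
    exact ha'.pos.ne' h1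
  have hp0 : side d zm zp zp' ≠ 0 := by
    intro h0
    have h1 := h2 zp' hp h0
    rw [ha'.right] at h1
    exact ha'.pos.ne' h1
  rcases lt_or_gt_of_ne hp0 with hp1 | hp1
  · -- reversed
    have hm1 : 0 < side d zm zp zm' := by
      rcases lt_or_gt_of_ne hm0 with h3 | h3
      · have h4 := gp_pos_of_neg h ha h3 hp1
        rw [hgp] at h4
        exact absurd h4 (lt_irrefl _)
      · exact h3
    refine Or.inr fun p hps => ?_
    rcases lt_trichotomy (side d zm' zp' p) 0 with h3 | h3 | h3
    · rw [sdist_of_neg_Basic h3]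
      have h4 := (side_neg_iff h ha' p).mp h3
      rw [gp_comm h w p zm'] at h4
      rw [sdist_of_pos_Basic (side_pos_of_gp h ha h4 hm1)]
    · have h4 := h2' p hps h3
      rw [sdist_of_zero_Basic h3, sdist_of_zero_Basic (side_of_zero h ha h4), neg_zero]
    · rw [sdist_of_pos_Basic h3]
      have h4 := (side_pos_iff h ha' p).mp h3
      rw [gp_comm h w p zp'] at h4
      rw [sdist_of_neg_Basic (side_neg_of_gp h ha h4 hp1), neg_neg]
  · have hm1 : side d zm zp zm' < 0 := by
      rcases lt_or_gt_of_ne hm0 with h3 | h3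
      · exact h3
      · have h4 := gp_pos_of_pos h ha h3 hp1
        rw [hgp] at h4
        exact absurd h4 (lt_irrefl _)
    refine Or.inl fun p hps => ?_
    rcases lt_trichotomy (side d zm' zp' p) 0 with h3 | h3 | h3
    · rw [sdist_of_neg_Basic h3]
      have h4 := (side_neg_iff h ha' p).mp h3
      rw [gp_comm h w p zm'] at h4
      rw [sdist_of_neg_Basic (side_neg_of_gp h ha h4 hm1)]
    · have h4 := h2' p hps h3
      rw [sdist_of_zero_Basic h3, sdist_of_zero_Basic (side_of_zero h ha h4)]
    · rw [sdist_of_pos_Basic h3]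
      have h4 := (side_pos_iff h ha' p).mp h3
      rw [gp_comm h w p zp'] at h4
      rw [sdist_of_pos_Basic (side_pos_of_gp h ha h4 hp1)]

end Pool.Agent.ANO3.Tree
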