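import Pool.Agent.ANO3.Defs
import Pool.Agent.ANO3.Tree.Basic

/-!
# ANO3, module Tree: connected sets in a tree (package TREE-PATH)

`P` is a topological space with a continuous pseudo-distance `d` which satisfies the four point
condition.

`not_sameArm_iff`, `sameArm_iff_gp`: unfolding (`gp d v a b = d v a + d v b - d a b`).
`sameArm_trans`: `gp_trans`.

`exists_between`: `K` preconnected, `p q ∈ K`, `0 ≤ θ ≤ d p q`. Let `g z = gp d p z q / 2`
(continuous, `g p = 0`, `g q = d p q`). The set `O` of the points `z` of `K` with `g z < θ` or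
(`g z = θ` and `g z < d p z` and ... ) has to be separated from the rest; cleanest: let
`A = {z | g z < θ} ∪ {z | g z = θ ∧ θ < d p z}` and `B = {z | θ < g z}`. Suppose no `z ∈ K` has
`d p z = θ`, `d z q = d p q - θ`, i.e. `g z = θ = d p z`. Then `K ⊆ A ∪ B`, `p ∈ A` (if `0 < θ`;
if `θ = 0` take `z = p`), `q ∈ B` (if `θ < d p q`; if `θ = d p q` take `z = q`), `B` is open and
`A` is open: if `g z = θ` and `e := d p z - θ > 0` then for `d z z' < e` the point `z'` hangs off
the segment `[p, q]` at the same place: `g z' = θ` and `d p z' > θ` (four point condition). So `K`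
is not preconnected.

`sameArm_of_connected`: `C` preconnected, `a, b ∈ C`, `d w z ≠ 0` on `C`: the sets
`{z | SameArm d w a z}` and `{z | d w z ≠ 0 ∧ ¬ SameArm d w a z}` are open (if `d z z' < d w z`
then `z`, `z'` are in the same arm) and cover `C`.

`exists_connected`: let `SameArm d w a b`, `t = gp d w a b / 2 > 0`. Take a path from `a` to `w`
(`PathConnectedSpace`); `f s = d w (path s)`; on `K = path '' [0, 1]`. Let `s₀` be the first `s`
with
`d w (path s) ≤ t ...`: more precisely choose the point `p₁` of the path with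
`d w p₁ = t`, `d p₁ a = d w a - t` such that the part of the path before `p₁` avoids `{d w z = 0}`:
`s₀` = infimum of the closed set `{s | d w (path s) = 0}` (nonempty: `s = 1`), the part
`path '' [0, s₀]` is connected and contains `a` and a point `w'` with `d w w' = 0`; by
`exists_between` it contains `p₁ = path s₁`, `s₁ < s₀` (as `t > 0`), so `C_a = path '' [0, s₁]`
avoids `{d w z = 0}`. The same for `b`: `p₂`, `C_b`. `d p₁ p₂ = 0` (both are the point of
`[w, a] ∩ [w, b]` at distance `t`: four point condition), so `p₂ ∈ {z | d z p₁ = 0}`, which is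
connected and avoids `{d w z = 0}` as `d w z = t` there. `C = C_a ∪ {z | d z p₁ = 0} ∪ C_b`.

`sameArm_map`: a homeomorphism `f` which preserves the relation `d a b = 0` preserves `SameArm`: the
image of the connected set of `exists_connected` under `f` and `sameArm_of_connected`; conversely
use `f.symm`.
`between_map`: `Btw d a w b` iff `d w a = 0` or `d w b = 0` or `¬ SameArm d w a b`.
-/

set_option autoImplicit false

open Set Filter Topology

namespace Pool.Agent.ANO3.Tree

variable {P : Type*} {d : P → P → ℝ}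

theorem sameArm_iff_gp {v a b : P} : SameArm d v a b ↔ 0 < gp d v a b := by
  unfold SameArm gp
  constructor <;> intro h <;> linarith

theorem btw_iff_gp (h : IsTree d) {a w b : P} : Btw d a w b ↔ gp d w a b = 0 := by
  unfold Btw gp
  rw [h.symm a w]
  constructor <;> intro h <;> linarith

theorem btw_iff_not_sameArm (h : IsTree d) {a w b : P} : Btw d a w b ↔ ¬ SameArm d w a b := by
  rw [btw_iff_gp h, sameArm_iff_gp, not_lt]
  exact ⟨fun h1 => h1.le, fun h1 => le_antisymm h1 (gp_nonneg h _ _ _)⟩

theorem btw_comm (h : IsTree d) {a w b : P} : Btw d a w b ↔ Btw d b w a := by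
  rw [btw_iff_gp h, btw_iff_gp h, gp_comm h]

theorem SameArm.symm (h : IsTree d) {w a b : P} (hab : SameArm d w a b) : SameArm d w b a := by
  rw [sameArm_iff_gp] at hab ⊢
  rwa [gp_comm h]

theorem SameArm.trans (h : IsTree d) {w a b c : P} (hab : SameArm d w a b)
    (hbc : SameArm d w b c) : SameArm d w a c := by
  rw [sameArm_iff_gp] at hab hbc ⊢
  exact lt_of_lt_of_le (lt_min hab hbc) (gp_trans h w a b c)

theorem SameArm.pos (h : IsTree d) {w a b : P} (hab : SameArm d w a b) :
    0 < d w a ∧ 0 < d w b := by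
  unfold SameArm at hab
  have h1 := h.triangle w a b
  have h2 := h.triangle w b a
  rw [h.symm b a] at h2
  constructor <;> linarith

theorem sameArm_self (h : IsTree d) {w a : P} (ha : 0 < d w a) : SameArm d w a a := by
  unfold SameArm
  rw [h.self]
  linarith

theorem sameArm_of_lt (h : IsTree d) {w a b : P} (hab : d a b < d w a) : SameArm d w a b := by
  unfold SameArm
  have := h.nonneg w b
  linarith

/-- the relation depends only on the points of the tree -/
theorem SameArm.congr (h : IsTree d) {w w' a a' b b' : P} (hw : d w w' = 0) (ha : d a a' = 0)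
    (hb : d b b' = 0) (hab : SameArm d w a b) : SameArm d w' a' b' := by
  unfold SameArm at hab ⊢
  rw [h.congr_left hw, h.congr_left hw, h.congr_left ha, h.symm a' b, h.symm w' a, h.symm w' b,
    h.congr_left hb, h.congr_left ha, h.congr_left hb, h.symm b' a', h.symm a' w', h.symm b' w']
    at hab
  exact hab

theorem Btw.congr (h : IsTree d) {w w' a a' b b' : P} (hw : d w w' = 0) (ha : d a a' = 0)
    (hb : d b b' = 0) (hab : Btw d a w b) : Btw d a' w' b' := by
  rw [btw_iff_not_sameArm h] at hab ⊢
  intro h1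
  refine hab (SameArm.congr h ?_ ?_ ?_ h1)
  · rwa [h.symm]
  · rwa [h.symm]
  · rwa [h.symm]

/-- two points of a segment `[v, a]` at the same distance of `v`; more generally of two segments
with
a long common initial segment -/
theorem eq_zero_of_btw (h : IsTree d) {v a b p q : P} (hp : Btw d v p a) (hq : Btw d v q b)
    (hpq : d v p = d v q) (hle : 2 * d v p ≤ gp d v a b) : d p q = 0 := by
  unfold Btw at hp hq
  have h1 : gp d v p a = 2 * d v p := by
    unfold gp
    linarith
  have h2 : gp d v b q = 2 * d v p := by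
    unfold gp
    rw [h.symm b q]
    linarith
  have h3 : 2 * d v p ≤ gp d v p b :=
    (le_min h1.ge hle).trans (gp_trans h v p a b)
  have h4 : 2 * d v p ≤ gp d v p q :=
    (le_min h3 h2.ge).trans (gp_trans h v p b q)
  unfold gp at h4
  exact le_antisymm (by linarith) (h.nonneg _ _)

/-- if `w` is between `v` and `a`, and before the branch point of `[v, a]` and `[v, b]`, then it is
between `v` and `b` -/
theorem btw_of_gp (h : IsTree d) {v w a b : P} (hw : Btw d v w a)
    (hle : 2 * d v w ≤ gp d v a b) : Btw d v w b := by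
  unfold Btw at hw ⊢
  have h1 : gp d v w a = 2 * d v w := by
    unfold gp
    linarith
  have h2 : 2 * d v w ≤ gp d v w b :=
    (le_min h1.ge hle).trans (gp_trans h v w a b)
  unfold gp at h2
  have h3 := h.triangle v w b
  linarith

/-- transitivity of betweenness -/
theorem Btw.trans (h : IsTree d) {v w p a : P} (hw : Btw d v w p) (hp : Btw d v p a) :
    Btw d v w a ∧ Btw d w p a := by
  unfold Btw at hw hp ⊢
  have h1 := h.triangle v w a
  have h2 := h.triangle w p a
  constructor <;> linarith

section Topology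

variable [TopologicalSpace P]

private theorem cont_Path (hc : Continuous fun p : P × P => d p.1 p.2) (w : P) :
    Continuous fun z => d w z :=
  hc.comp (continuous_const.prodMk continuous_id)

theorem isOpen_sameArm (h : IsTree d) (hc : Continuous fun p : P × P => d p.1 p.2) (w a : P) :
    IsOpen {z | SameArm d w a z} := by
  unfold SameArm
  exact isOpen_lt (cont_Path hc a) (continuous_const.add (cont_Path hc w))

theorem isOpen_not_sameArm (h : IsTree d) (hc : Continuous fun p : P × P => d p.1 p.2) (w a : P) :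
    IsOpen {z | 0 < d w z ∧ ¬ SameArm d w a z} := by
  rw [isOpen_iff_mem_nhds]
  rintro z ⟨hz, hn⟩
  have h1 : {z' | d z z' < d w z} ∈ 𝓝 z := by
    refine (isOpen_lt (cont_Path hc z) continuous_const).mem_nhds ?_
    change d z z < d w z
    rw [h.self]
    exact hz
  filter_upwards [h1] with z' hz'
  have h2 := sameArm_of_lt h hz'
  exact ⟨(SameArm.pos h h2).2, fun h3 => hn (SameArm.trans h h3 (SameArm.symm h h2))⟩

omit [TopologicalSpace P] in
private theorem gp_eq_Path (h : IsTree d) {p q z z' : P} {θ : ℝ} (hz : gp d p z q = 2 * θ)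
    (hoff : d z z' < d p z - θ) : gp d p z' q = 2 * θ ∧ θ < d p z' := by
  have h1 := h.triangle p z' z
  rw [h.symm z' z] at h1
  have h2 : 2 * θ < gp d p z z' := by
    unfold gp
    linarith
  have h3 : 2 * θ ≤ gp d p z' q := by
    have h4 := gp_trans h p z' z q
    rw [gp_comm h p z' z, hz, min_eq_right h2.le] at h4
    exact h4
  have h5 : gp d p z' q ≤ 2 * θ := by
    have h6 := gp_trans h p z z' q
    rw [hz] at h6
    rcases min_le_iff.mp h6 with h7 | h7
    · linarith
    · exact h7
  exact ⟨le_antisymm h5 h3, by linarith⟩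

theorem exists_between (h : IsTree d) (hc : Continuous fun p : P × P => d p.1 p.2) {K : Set P}
    (hK : IsPreconnected K) {p q : P} (hp : p ∈ K) (hq : q ∈ K) {θ : ℝ} (h0 : 0 ≤ θ)
    (h1 : θ ≤ d p q) : ∃ z ∈ K, d p z = θ ∧ d z q = d p q - θ := by
  rcases h0.eq_or_lt with rfl | h0
  · exact ⟨p, hp, h.self p, by rw [sub_zero]⟩
  rcases h1.eq_or_lt with rfl | h1
  · exact ⟨q, hq, rfl, by rw [h.self, sub_self]⟩
  by_contra hcon
  push Not at hcon
  have hgc : Continuous fun z => gp d p z q := by
    unfold gp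
    refine ((cont_Path hc p).add continuous_const).sub ?_
    exact hc.comp (continuous_id.prodMk continuous_const)
  have hAo : IsOpen ({z | gp d p z q < 2 * θ} ∪ {z | gp d p z q = 2 * θ ∧ θ < d p z}) := by
    rw [isOpen_iff_mem_nhds]
    rintro z (hz | ⟨hz, hz'⟩)
    · filter_upwards [(isOpen_lt hgc continuous_const).mem_nhds hz] with z' hz'
      exact Or.inl hz'
    · have h2 : {z' | d z z' < d p z - θ} ∈ 𝓝 z := by
        refine (isOpen_lt (cont_Path hc z) continuous_const).mem_nhds ?_
        change d z z < d p z - θ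
        rw [h.self]
        linarith
      filter_upwards [h2] with z' hz''
      exact Or.inr (gp_eq_Path h hz hz'')
  have hBo : IsOpen {z | 2 * θ < gp d p z q} := isOpen_lt continuous_const hgc
  have hpA : gp d p p q = 0 := by
    unfold gp
    rw [h.self]
    ring
  have hqB : gp d p q q = 2 * d p q := by
    unfold gp
    rw [h.self]
    ring
  obtain ⟨z, -, hzA, hzB⟩ := hK _ _ hAo hBo (by
      intro z hz
      rcases lt_trichotomy (gp d p z q) (2 * θ) with h3 | h3 | h3
      · exact Or.inl (Or.inl h3)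
      · left
        right
        refine ⟨h3, ?_⟩
        have h4 := gp_le_left h p z q
        rcases (show θ ≤ d p z by linarith).lt_or_eq with h5 | h5
        · exact h5
        · exfalso
          refine hcon z hz h5.symm ?_
          unfold gp at h3
          linarith
      · exact Or.inr h3)
    ⟨p, hp, Or.inl (by
      change gp d p p q < 2 * θ
      rw [hpA]
      linarith)⟩
    ⟨q, hq, by
      change 2 * θ < gp d p q q
      rw [hqB]
      linarith⟩
  change 2 * θ < gp d p z q at hzB
  rcases hzA with h3 | h3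
  · change gp d p z q < 2 * θ at h3
    linarith
  · linarith [h3.1]

theorem sameArm_of_connected (h : IsTree d) (hc : Continuous fun p : P × P => d p.1 p.2)
    {C : Set P} (hC : IsPreconnected C) {w a b : P} (ha : a ∈ C) (hb : b ∈ C)
    (h0 : ∀ z ∈ C, d w z ≠ 0) : SameArm d w a b := by
  by_contra hcon
  have hpos : ∀ z ∈ C, 0 < d w z := fun z hz => lt_of_le_of_ne (h.nonneg _ _) (h0 z hz).symm
  obtain ⟨z, -, hz1, hz2⟩ := hC _ _ (isOpen_sameArm h hc w a) (isOpen_not_sameArm h hc w a) (by
      intro z hz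
      by_cases h1 : SameArm d w a z
      · exact Or.inl h1
      · exact Or.inr ⟨hpos z hz, h1⟩)
    ⟨a, ha, sameArm_self h (hpos a ha)⟩ ⟨b, hb, hpos b hb, hcon⟩
  exact hz2.2 hz1

private theorem half_Path [PathConnectedSpace P] (h : IsTree d)
    (hc : Continuous fun p : P × P => d p.1 p.2) {w a : P} {t : ℝ} (ht : 0 < t)
    (hta : t ≤ d w a) :
    ∃ C : Set P, IsPreconnected C ∧ a ∈ C ∧ (∀ z ∈ C, d w z ≠ 0) ∧
      ∃ p ∈ C, d w p = t ∧ d p a = d w a - t := by
  obtain ⟨γ⟩ : Nonempty (Path a w) := ⟨PathConnectedSpace.somePath a w⟩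
  have hf : Continuous γ.extend := γ.continuous_extend
  have hZ : IsCompact (Icc (0 : ℝ) 1 ∩ {s | d w (γ.extend s) = 0}) :=
    isCompact_Icc.inter_right (isClosed_eq ((cont_Path hc w).comp hf) continuous_const)
  obtain ⟨s₀, hs₀, hmin⟩ := hZ.exists_isLeast ⟨1, ⟨zero_le_one, le_rfl⟩, by
    change d w (γ.extend 1) = 0
    rw [γ.extend_one, h.self]⟩
  have hw : d w (γ.extend s₀) = 0 := hs₀.2
  have hK : IsPreconnected (γ.extend '' Icc 0 s₀) := isPreconnected_Icc.image _ hf.continuousOn
  have haK : a ∈ γ.extend '' Icc 0 s₀ := ⟨0, ⟨le_rfl, hs₀.1.1⟩, γ.extend_zero⟩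
  obtain ⟨p, ⟨s₁, hs₁, rfl⟩, hp1, hp2⟩ := exists_between h hc hK
    (p := γ.extend s₀) (q := a) ⟨s₀, ⟨hs₀.1.1, le_rfl⟩, rfl⟩ haK ht.le (by
      rw [← h.congr_left hw]
      exact hta)
  rw [← h.congr_left hw] at hp1 hp2
  have hlt : s₁ < s₀ := by
    refine lt_of_le_of_ne hs₁.2 ?_
    rintro rfl
    rw [hw] at hp1
    exact ht.ne hp1
  refine ⟨γ.extend '' Icc 0 s₁, isPreconnected_Icc.image _ hf.continuousOn,
    ⟨0, ⟨le_rfl, hs₁.1⟩, γ.extend_zero⟩, ?_, γ.extend s₁, ⟨s₁, ⟨hs₁.1, le_rfl⟩, rfl⟩, hp1, hp2⟩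
  rintro z ⟨s, hs, rfl⟩ hz
  have h1 := hmin ⟨⟨hs.1, (hs.2.trans hlt.le).trans hs₀.1.2⟩, hz⟩
  exact absurd (h1.trans hs.2) (not_le_of_gt hlt)

theorem exists_connected [PathConnectedSpace P] (h : IsTree d)
    (hc : Continuous fun p : P × P => d p.1 p.2) (hconn : ∀ a, IsConnected {z | d z a = 0})
    {w a b : P} (hab : SameArm d w a b) :
    ∃ C : Set P, IsPreconnected C ∧ a ∈ C ∧ b ∈ C ∧ ∀ z ∈ C, d w z ≠ 0 := by
  have hg := sameArm_iff_gp.mp hab
  have ht : 0 < gp d w a b / 2 := by linarith
  have hta : gp d w a b / 2 ≤ d w a := by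
    have := gp_le_left h w a b
    linarith
  have htb : gp d w a b / 2 ≤ d w b := by
    have := gp_le_left h w b a
    rw [gp_comm h w b a] at this
    linarith
  obtain ⟨A, hA, haA, hA0, p, hpA, hp1, hp2⟩ := half_Path h hc ht hta
  obtain ⟨B, hB, hbB, hB0, q, hqB, hq1, hq2⟩ := half_Path h hc ht htb
  have hpq : d p q = 0 := by
    refine eq_zero_of_btw h (v := w) (a := a) (b := b) ?_ ?_ (hp1.trans hq1.symm) ?_
    · unfold Btw
      linarith
    · unfold Btw
      linarith
    · rw [hp1]
      linarith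
  have hF := (hconn p).isPreconnected
  have hpF : p ∈ {z | d z p = 0} := h.self p
  have hqF : q ∈ {z | d z p = 0} := by
    change d q p = 0
    rw [h.symm, hpq]
  have hF0 : ∀ z ∈ {z | d z p = 0}, d w z ≠ 0 := by
    intro z hz hz0
    change d z p = 0 at hz
    rw [h.symm w z, h.congr_left hz, h.symm p w, hp1] at hz0
    exact ht.ne' hz0
  have h1 : IsPreconnected (A ∪ {z | d z p = 0}) := hA.union p hpA hpF hF
  refine ⟨(A ∪ {z | d z p = 0}) ∪ B, h1.union q (Or.inr hqF) hqB hB, Or.inl (Or.inl haA),
    Or.inr hbB, ?_⟩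
  rintro z ((hz | hz) | hz)
  · exact hA0 z hz
  · exact hF0 z hz
  · exact hB0 z hz

theorem sameArm_map [PathConnectedSpace P] (h : IsTree d)
    (hc : Continuous fun p : P × P => d p.1 p.2) (hconn : ∀ a, IsConnected {z | d z a = 0})
    (f : P ≃ₜ P) (hf : ∀ a b, d (f a) (f b) = 0 ↔ d a b = 0) (w a b : P) :
    SameArm d (f w) (f a) (f b) ↔ SameArm d w a b := by
  constructor
  · intro h1
    obtain ⟨C, hC, ha, hb, h0⟩ := exists_connected h hc hconn h1
    refine sameArm_of_connected h hc (hC.image _ f.symm.continuous.continuousOn)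
      ⟨f a, ha, f.symm_apply_apply a⟩ ⟨f b, hb, f.symm_apply_apply b⟩ ?_
    rintro z ⟨c, hcC, rfl⟩ hz
    apply h0 c hcC
    rw [← hf, f.apply_symm_apply] at hz
    exact hz
  · intro h1
    obtain ⟨C, hC, ha, hb, h0⟩ := exists_connected h hc hconn h1
    refine sameArm_of_connected h hc (hC.image _ f.continuous.continuousOn)
      ⟨a, ha, rfl⟩ ⟨b, hb, rfl⟩ ?_
    rintro z ⟨c, hcC, rfl⟩ hz
    exact h0 c hcC ((hf _ _).mp hz)

theorem btw_map [PathConnectedSpace P] (h : IsTree d)
    (hc : Continuous fun p : P × P => d p.1 p.2) (hconn : ∀ a, IsConnected {z | d z a = 0})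
    (f : P ≃ₜ P) (hf : ∀ a b, d (f a) (f b) = 0 ↔ d a b = 0) (a w b : P) :
    Btw d (f a) (f w) (f b) ↔ Btw d a w b := by
  rw [btw_iff_not_sameArm h, btw_iff_not_sameArm h, sameArm_map h hc hconn f hf]

end Topology

end Pool.Agent.ANO3.Tree
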