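import Mathlib

/-!
# ANO3, module Tree: pseudo-distances with the four point condition (definitions)
-/

set_option autoImplicit false

open Set Filter Topology

namespace Pool.Agent.ANO3.Tree

variable {P : Type*}

/-- `d` is a pseudo-distance with the four point condition (the pseudo-distance of a subset of a
tree). -/
structure IsTree (d : P → P → ℝ) : Prop where
  self : ∀ a, d a a = 0
  symm : ∀ a b, d a b = d b a
  triangle : ∀ a b c, d a c ≤ d a b + d b c
  tree : ∀ a b c e, d a b + d c e ≤ max (d a c + d b e) (d a e + d b c)

/-- Twice the Gromov product of `a` and `b` at `w`. -/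
def gp (d : P → P → ℝ) (w a b : P) : ℝ := d w a + d w b - d a b

/-- `zm`, `w`, `zp` are on a line in this order, at distance `t` from `w`. -/
structure IsArc (d : P → P → ℝ) (w zm zp : P) (t : ℝ) : Prop where
  pos : 0 < t
  left : d w zm = t
  right : d w zp = t
  sum : d zm zp = 2 * t

/-- Positive on the side of `zp`, negative on the side of `zm`. -/
def side (d : P → P → ℝ) (zm zp p : P) : ℝ := d zm p - d zp p

/-- The signed distance from `w`: positive on the side of `zp`, negative on the side of `zm`. -/
noncomputable def sdist (d : P → P → ℝ) (w zm zp p : P) : ℝ :=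
  if 0 < side d zm zp p then d w p else if side d zm zp p < 0 then -d w p else 0

/-- There is no direction at `w` besides those of `zm` and `zp`, for the points of `s`. -/
def TwoSided (d : P → P → ℝ) (w zm zp : P) (s : Set P) : Prop :=
  ∀ p ∈ s, side d zm zp p = 0 → d w p = 0

end Pool.Agent.ANO3.Tree
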