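import Pool.Agent.ANO3.Tree.Defs

/-!
# ANO3, module Tree: the limit pseudo-distance (package TREE-LIM)

`R : P → P` multiplies the pseudo-distance `e` by `l > 1` up to the error `c`. `lim e R l a b` is
the
limit of `l⁻ⁿ e (R^n a) (R^n b)`: the difference of consecutive terms is at most `c / l^(n+1)`, so
the
sequence is Cauchy (`cauchySeq_of_le_geometric`) and the sum of the differences is at most
`c / (l - 1)` (`dist_le_of_le_geometric_of_tendsto₀`). The other statements pass to the limit
(`le_of_tendsto`, `tendsto_nhds_unique`). `tendstoUniformly`: the estimate is uniform, at the index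
`n`
it is `c / ((l - 1) l^n)`; `continuous_lim`: uniform limit of continuous functions
(`TendstoUniformly.continuous`).
-/

set_option autoImplicit false

open Set Filter Topology

namespace Pool.Agent.ANO3.Tree

variable {P : Type*}

/-- `R` multiplies `e` by `l > 1` up to the error `c`. -/
structure Expands (e : P → P → ℝ) (R : P → P) (l c : ℝ) : Prop where
  one_lt : 1 < l
  est : ∀ a b, |e (R a) (R b) - l * e a b| ≤ c

/-- The limit pseudo-distance. -/
noncomputable def lim (e : P → P → ℝ) (R : P → P) (l : ℝ) (a b : P) : ℝ :=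
  limUnder atTop fun n : ℕ => e (R^[n] a) (R^[n] b) / l ^ n

variable {e : P → P → ℝ} {R : P → P} {l c : ℝ}

private theorem pos_Lim (h : Expands e R l c) : 0 < l := zero_lt_one.trans h.one_lt

private theorem inv_lt_Lim (h : Expands e R l c) : l⁻¹ < 1 := inv_lt_one_of_one_lt₀ h.one_lt

private theorem step_Lim (h : Expands e R l c) (a b : P) (n : ℕ) :
    dist (e (R^[n] a) (R^[n] b) / l ^ n) (e (R^[n + 1] a) (R^[n + 1] b) / l ^ (n + 1)) ≤
      c / l * l⁻¹ ^ n := by
  have hl := pos_Lim h
  have h1 := h.est (R^[n] a) (R^[n] b)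
  rw [← Function.iterate_succ_apply' R n a, ← Function.iterate_succ_apply' R n b] at h1
  rw [dist_comm, Real.dist_eq]
  have h2 : e (R^[n + 1] a) (R^[n + 1] b) / l ^ (n + 1) - e (R^[n] a) (R^[n] b) / l ^ n =
      (e (R^[n + 1] a) (R^[n + 1] b) - l * e (R^[n] a) (R^[n] b)) / l ^ (n + 1) := by
    rw [pow_succ]
    field_simp
  have h3 : c / l * l⁻¹ ^ n = c / l ^ (n + 1) := by
    rw [inv_pow, pow_succ]
    field_simp
  rw [h2, h3, abs_div, abs_of_pos (pow_pos hl _)]
  exact div_le_div_of_nonneg_right h1 (pow_pos hl _).le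

theorem tendsto_lim (h : Expands e R l c) (a b : P) :
    Tendsto (fun n : ℕ => e (R^[n] a) (R^[n] b) / l ^ n) atTop (𝓝 (lim e R l a b)) := by
  exact tendsto_nhds_limUnder (cauchySeq_tendsto_of_complete
    (cauchySeq_of_le_geometric _ _ (inv_lt_Lim h) (step_Lim h a b)))

theorem abs_lim_sub_le (h : Expands e R l c) (a b : P) :
    |lim e R l a b - e a b| ≤ c / (l - 1) := by
  have h1 := dist_le_of_le_geometric_of_tendsto₀ _ _ (inv_lt_Lim h) (step_Lim h a b)
    (tendsto_lim h a b)
  have hl := pos_Lim h
  have h3 : 0 < l - 1 := sub_pos.2 h.one_lt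
  have h2 : c / l / (1 - l⁻¹) = c / (l - 1) := by
    have h4 : (1 : ℝ) - l⁻¹ = (l - 1) / l := by
      field_simp
    rw [h4]
    field_simp
  rw [h2, dist_comm, Real.dist_eq] at h1
  simpa using h1

theorem lim_map (h : Expands e R l c) (a b : P) :
    lim e R l (R a) (R b) = l * lim e R l a b := by
  have hl := pos_Lim h
  have h1 := tendsto_lim h (R a) (R b)
  have h2 := ((tendsto_add_atTop_iff_nat 1).2 (tendsto_lim h a b)).const_mul l
  refine tendsto_nhds_unique h1 (h2.congr fun n => ?_)
  rw [← Function.iterate_succ_apply, ← Function.iterate_succ_apply, pow_succ]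
  field_simp

theorem lim_iterate (h : Expands e R l c) (n : ℕ) (a b : P) :
    lim e R l (R^[n] a) (R^[n] b) = l ^ n * lim e R l a b := by
  induction n with
  | zero => simp
  | succ n ih =>
    rw [Function.iterate_succ_apply', Function.iterate_succ_apply', lim_map h, ih, pow_succ]
    ring

theorem isTree_lim (h : Expands e R l c) (he : IsTree e) : IsTree (lim e R l) := by
  have hl := pos_Lim h
  refine ⟨fun a => ?_, fun a b => ?_, fun a b d => ?_, fun a b d f => ?_⟩
  · refine tendsto_nhds_unique (tendsto_lim h a a) ?_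
    refine tendsto_const_nhds.congr fun n => ?_
    rw [he.self, zero_div]
  · refine tendsto_nhds_unique (tendsto_lim h a b) ((tendsto_lim h b a).congr fun n => ?_)
    rw [he.symm]
  · refine le_of_tendsto_of_tendsto' (tendsto_lim h a d)
      ((tendsto_lim h a b).add (tendsto_lim h b d)) fun n => ?_
    rw [← add_div]
    exact div_le_div_of_nonneg_right (he.triangle _ _ _) (pow_pos hl _).le
  · refine le_of_tendsto_of_tendsto' ((tendsto_lim h a b).add (tendsto_lim h d f))
      (((tendsto_lim h a d).add (tendsto_lim h b f)).max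
        ((tendsto_lim h a f).add (tendsto_lim h b d))) fun n => ?_
    rw [← add_div, ← add_div, ← add_div, max_div_div_right (pow_pos hl n).le]
    exact div_le_div_of_nonneg_right (he.tree _ _ _ _) (pow_pos hl _).le

theorem continuous_lim [TopologicalSpace P] (h : Expands e R l c)
    (he : Continuous fun p : P × P => e p.1 p.2) (hR : Continuous R) :
    Continuous fun p : P × P => lim e R l p.1 p.2 := by
  have hl := pos_Lim h
  have h1 : TendstoUniformly
      (fun (n : ℕ) (p : P × P) => e (R^[n] p.1) (R^[n] p.2) / l ^ n)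
      (fun p : P × P => lim e R l p.1 p.2) atTop := by
    rw [Metric.tendstoUniformly_iff]
    intro ε hε
    have h2 : Tendsto (fun n : ℕ => c / l * l⁻¹ ^ n / (1 - l⁻¹)) atTop (𝓝 0) := by
      have h3 := ((tendsto_pow_atTop_nhds_zero_of_lt_one (inv_pos.2 hl).le
        (inv_lt_Lim h)).const_mul (c / l)).div_const (1 - l⁻¹)
      simpa using h3
    filter_upwards [h2.eventually (gt_mem_nhds hε)] with n hn p
    have h4 := dist_le_of_le_geometric_of_tendsto _ _ (inv_lt_Lim h) (step_Lim h p.1 p.2)
      (tendsto_lim h p.1 p.2) n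
    rw [dist_comm]
    exact h4.trans_lt hn
  refine h1.continuous (Frequently.of_forall fun n => ?_)
  exact (he.comp (((hR.iterate n).comp continuous_fst).prodMk
    ((hR.iterate n).comp continuous_snd))).div_const _

/-- if `R` multiplies `e a b` by `l` exactly along the orbits then the limit is `e a b` -/
theorem lim_eq (h : Expands e R l c) {a b : P}
    (hab : ∀ n : ℕ, e (R^[n + 1] a) (R^[n + 1] b) = l * e (R^[n] a) (R^[n] b)) :
    lim e R l a b = e a b := by
  have hl := pos_Lim h
  have h1 : ∀ n : ℕ, e (R^[n] a) (R^[n] b) = l ^ n * e a b := by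
    intro n
    induction n with
    | zero => simp
    | succ n ih =>
      rw [hab, ih, pow_succ]
      ring
  refine tendsto_nhds_unique (tendsto_lim h a b) (tendsto_const_nhds.congr fun n => ?_)
  rw [h1]
  field_simp

/-- the limit vanishes iff the pseudo-distance is bounded along the orbits -/
theorem lim_eq_zero_iff (h : Expands e R l c) (he : IsTree e) (a b : P) :
    lim e R l a b = 0 ↔ ∃ C : ℝ, ∀ n : ℕ, e (R^[n] a) (R^[n] b) ≤ C := by
  have hl := pos_Lim h
  have h0 : ∀ x y, 0 ≤ e x y := by
    intro x y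
    have h1 := he.triangle x y x
    rw [he.self, he.symm y x] at h1
    linarith
  constructor
  · intro hab
    refine ⟨c / (l - 1), fun n => ?_⟩
    have h1 := abs_lim_sub_le h (R^[n] a) (R^[n] b)
    rw [lim_iterate h, hab, mul_zero, zero_sub, abs_neg, abs_of_nonneg (h0 _ _)] at h1
    exact h1
  · rintro ⟨C, hC⟩
    refine le_antisymm ?_ (ge_of_tendsto' (tendsto_lim h a b) fun n =>
      div_nonneg (h0 _ _) (pow_pos hl _).le)
    have h2 : Tendsto (fun n : ℕ => C * l⁻¹ ^ n) atTop (𝓝 0) := by
      have h3 := (tendsto_pow_atTop_nhds_zero_of_lt_one (inv_pos.2 hl).le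
        (inv_lt_Lim h)).const_mul C
      simpa using h3
    refine le_of_tendsto_of_tendsto' (tendsto_lim h a b) h2 fun n => ?_
    rw [inv_pow, ← div_eq_mul_inv]
    exact div_le_div_of_nonneg_right (hC n) (pow_pos hl _).le

/-- invariance: `g n` are maps with `R^n ∘ g 0 = g n ∘ R^n` which preserve `e` -/
theorem lim_congr {e' : P → P → ℝ} {a b a' b' : P}
    (hab : ∀ n : ℕ, e' (R^[n] a') (R^[n] b') = e (R^[n] a) (R^[n] b)) :
    lim e' R l a' b' = lim e R l a b := by
  unfold lim
  simp only [hab]

end Pool.Agent.ANO3.Tree
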